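import Pool.Agent.Helper20.MB.DefsG

/-!
# Piece MB-7a: elementary properties of the gauge transformation
-/

open Filter Metric Module Set
open scoped Topology ContDiff RealInnerProductSpace Manifold

set_option autoImplicit false
set_option maxSynthPendingDepth 3

namespace Pool.Agent.Helper72.MB
open Pool.Agent.Helper20.PC Pool.Agent.Helper20.HP Pool.Agent.Helper20.M8 Pool.Agent.Helper20.MB

section
variable {V Y : Type*} [NormedAddCommGroup V] [NormedSpace ℝ V] [FiniteDimensional ℝ V]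
  [NormedAddCommGroup Y] [NormedSpace ℝ Y] [FiniteDimensional ℝ Y] {D : BD V Y} {x : V} {y : Y}

/-- the quadratic part of the gauge transformation. -/
noncomputable def gB (A : V → V →L[ℝ] Y →L[ℝ] Y) (x : V) : V →L[ℝ] V →L[ℝ] Y →L[ℝ] Y :=
  (ContinuousLinearMap.compL ℝ Y Y Y).bilinearComp (A x) (A x) - fderiv ℝ A x

theorem gB_apply (A : V → V →L[ℝ] Y →L[ℝ] Y) (x ξ ζ : V) :
    gB A x ξ ζ = (A x ξ) ∘L (A x ζ) - fderiv ℝ A x ξ ζ := by
  simp [gB]

theorem gau_eq (A : V → V →L[ℝ] Y →L[ℝ] Y) (x x' : V) :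
    gau A x x' = ContinuousLinearMap.id ℝ Y - A x (x' - x) + (1/2 : ℝ) • gB A x (x' - x) (x' - x) := by
  rw [gB_apply]
  rfl

theorem gau_hasFDerivAt (A : V → V →L[ℝ] Y →L[ℝ] Y) (x x' : V) :
    HasFDerivAt (gau A x) (- A x + (1/2 : ℝ) • (gB A x + (gB A x).flip) (x' - x)) x' := by
  have h1 : HasFDerivAt (fun z : V => z - x) (ContinuousLinearMap.id ℝ V) x' :=
    (hasFDerivAt_id x').sub_const x
  have h2 : HasFDerivAt (fun z : V => A x (z - x)) (A x) x' := by
    have := (A x).hasFDerivAt.comp x' h1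
    rw [ContinuousLinearMap.comp_id] at this
    exact this
  have h3 : HasFDerivAt (fun z : V => gB A x (z - x) (z - x))
      ((gB A x + (gB A x).flip) (x' - x)) x' := by
    have h4 : HasFDerivAt (fun z : V => gB A x (z - x)) (gB A x) x' := by
      have := (gB A x).hasFDerivAt.comp x' h1
      rw [ContinuousLinearMap.comp_id] at this
      exact this
    have h5 := h4.clm_apply h1
    refine h5.congr_fderiv ?_
    ext ξ
    simp
  have h6 := ((hasFDerivAt_const (ContinuousLinearMap.id ℝ Y) x').sub h2).add (h3.const_smul (1/2 : ℝ))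
  have h7 : gau A x = fun z => ContinuousLinearMap.id ℝ Y - A x (z - x)
      + (1/2 : ℝ) • gB A x (z - x) (z - x) := funext fun z => gau_eq A x z
  rw [h7]
  refine h6.congr_fderiv ?_
  ext ξ
  simp

theorem gau_contDiff (A : V → V →L[ℝ] Y →L[ℝ] Y) (x : V) : ContDiff ℝ ∞ (gau A x) := by
  have h7 : gau A x = fun z => ContinuousLinearMap.id ℝ Y - A x (z - x)
      + (1/2 : ℝ) • gB A x (z - x) (z - x) := funext fun z => gau_eq A x z
  rw [h7]
  fun_prop

theorem gau_self (A : V → V →L[ℝ] Y →L[ℝ] Y) (x : V) : gau A x x = ContinuousLinearMap.id ℝ Y := by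
  simp [gau]

theorem gau_fderiv_eq (A : V → V →L[ℝ] Y →L[ℝ] Y) (x : V) :
    fderiv ℝ (gau A x) = fun x' => - A x + (1/2 : ℝ) • (gB A x + (gB A x).flip) (x' - x) :=
  funext fun x' => (gau_hasFDerivAt A x x').fderiv

theorem gau_fderiv (A : V → V →L[ℝ] Y →L[ℝ] Y) (x ζ : V) : fderiv ℝ (gau A x) x ζ = - A x ζ := by
  rw [gau_fderiv_eq]
  simp

theorem gau_fderiv2 (A : V → V →L[ℝ] Y →L[ℝ] Y) (x ξ ζ : V) :
    fderiv ℝ (fderiv ℝ (gau A x)) x ξ ζ = (1/2 : ℝ) • ((A x ξ) ∘L (A x ζ) + (A x ζ) ∘L (A x ξ)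
      - fderiv ℝ A x ξ ζ - fderiv ℝ A x ζ ξ) := by
  have h1 : HasFDerivAt (fun z : V => z - x) (ContinuousLinearMap.id ℝ V) x :=
    (hasFDerivAt_id x).sub_const x
  have h2 : HasFDerivAt (fun x' => - A x + (1/2 : ℝ) • (gB A x + (gB A x).flip) (x' - x))
      ((1/2 : ℝ) • (gB A x + (gB A x).flip)) x := by
    have h3 := ((gB A x + (gB A x).flip).hasFDerivAt.comp x h1).const_smul (1/2 : ℝ)
    have h4 := (hasFDerivAt_const (- A x) x).add h3
    refine h4.congr_fderiv ?_
    ext ξ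
    simp
  rw [gau_fderiv_eq, h2.fderiv]
  simp only [smul_apply, add_apply, ContinuousLinearMap.flip_apply, gB_apply]
  congr 1
  abel

theorem gau_inv (A : V → V →L[ℝ] Y →L[ℝ] Y) (x : V) :
    (∀ᶠ x' in 𝓝 x, (gau A x x').IsInvertible) ∧ ContDiffAt ℝ ∞ (fun x' => (gau A x x').inverse) x := by
  have h1 : gau A x x = ((ContinuousLinearEquiv.refl ℝ Y : Y ≃L[ℝ] Y) : Y →L[ℝ] Y) := by
    rw [gau_self]
    rfl
  constructor
  · have h2 : ∀ᶠ g in 𝓝 (gau A x x), (g : Y →L[ℝ] Y).IsInvertible := by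
      rw [h1]
      exact (ContinuousLinearEquiv.nhds (ContinuousLinearEquiv.refl ℝ Y))
    exact (gau_contDiff A x).continuous.continuousAt.eventually h2
  · have h3 : ContDiffAt ℝ ∞ ContinuousLinearMap.inverse (gau A x x) := by
      rw [h1]
      exact contDiffAt_map_inverse _
    exact h3.comp x (gau_contDiff A x).contDiffAt

end

end Pool.Agent.Helper72.MB
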