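import Pool.Agent.Helper72.MB.P8a

/-!
# Piece MB-7c: the new data are in normal gauge
-/

open Filter Metric Module Set
open scoped Topology ContDiff RealInnerProductSpace Manifold

set_option autoImplicit false
set_option maxSynthPendingDepth 3

namespace Pool.Agent.Helper72.MB
open Pool.Agent.Helper20.PC Pool.Agent.Helper20.HP Pool.Agent.Helper20.M8 Pool.Agent.Helper20.MB

section
variable {V Y : Type*} [NormedAddCommGroup V] [NormedSpace ℝ V] [FiniteDimensional ℝ V]
  [NormedAddCommGroup Y] [NormedSpace ℝ Y] [FiniteDimensional ℝ Y] {D : BD V Y} {x : V} {y : Y}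

theorem two_le_inf : (2 : WithTop ℕ∞) ≤ ∞ := WithTop.coe_le_coe.2 (le_top : (2:ℕ∞) ≤ ⊤)

theorem til_A_self (D : BD V Y) (x : V) : (D.til x).A x = 0 := by
  ext ζ p
  rw [BD.til_A, gau_self, gau_fderiv]
  simp

theorem til_A_fderiv (H : D.Good x) (ξ ζ : V) (p : Y) :
    fderiv ℝ (D.til x).A x ξ ζ p = (1/2 : ℝ) • OmV D.A x ξ ζ p := by
  have h1 : ∀ᶠ z in 𝓝 x, (gau D.A x z).IsInvertible := (gau_inv D.A x).1
  have hA : DifferentiableAt ℝ D.A x := H.hA.differentiableAt (by simp)
  have hA' : DifferentiableAt ℝ (D.til x).A x := (til_A_contDiffAt H.hA).differentiableAt (by simp)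
  have k1 := til_key h1 hA hA' ξ ζ p
  rw [til_A_self, gau_self, gau_fderiv] at k1
  simp only [smul_apply, add_apply, ContinuousLinearMap.flip_apply, gB_apply, zero_apply, map_zero,
    ContinuousLinearMap.id_apply, neg_apply, sub_apply, ContinuousLinearMap.comp_apply, map_neg,
    zero_add] at k1
  rw [k1]
  simp only [OmV, add_apply, sub_apply, ContinuousLinearMap.comp_apply]
  module

/-- the second derivative of the new fibre metric. -/
theorem til_k_fderiv2 (HT : (D.til x).Good x) (ξ ζ : V) (p q : Y) :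
    fderiv ℝ (fderiv ℝ (D.til x).k) x ξ ζ p q
      = (D.til x).k x (fderiv ℝ (D.til x).A x ξ ζ p) q
        + (D.til x).k x p (fderiv ℝ (D.til x).A x ξ ζ q) := by
  have hA' : DifferentiableAt ℝ (D.til x).A x := HT.hA.differentiableAt (by simp)
  have hk : DifferentiableAt ℝ (D.til x).k x := HT.hk.differentiableAt (by simp)
  have hdk : DifferentiableAt ℝ (fderiv ℝ (D.til x).k) x :=
    (HT.hk.fderiv_right (m := 1) (by rw [one_add_one_eq_two]; exact two_le_inf)).differentiableAt (by simp)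
  have f1 := ((hdk.hasFDerivAt.clm_apply (hasFDerivAt_const ζ x)).clm_apply
    (hasFDerivAt_const p x)).clm_apply (hasFDerivAt_const q x)
  have f2 := (hk.hasFDerivAt.clm_apply (apply2 hA' ζ p)).clm_apply (hasFDerivAt_const q x)
  have f3 := (hk.hasFDerivAt.clm_apply (hasFDerivAt_const p x)).clm_apply (apply2 hA' ζ q)
  have f4 : (fun z => fderiv ℝ (D.til x).k z ζ p q) =ᶠ[𝓝 x]
      fun z => (D.til x).k z ((D.til x).A z ζ p) q + (D.til x).k z p ((D.til x).A z ζ q) := by
    filter_upwards [HT.kpar] with z hz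
    exact hz ζ p q
  have f5 := (f1.unique ((f2.add f3).congr_of_eventuallyEq f4))
  have f6 := congrArg (fun L => L ξ) f5
  simp [til_A_self] at f6
  exact f6

theorem til_NG' (H : D.Good x) (HT : (D.til x).Good x) :
    NG (D.til x).h (D.til x).k (D.til x).S (D.til x).A x := by
  have hanti : ∀ ζ ζ' p, fderiv ℝ (D.til x).A x ζ ζ' p = - fderiv ℝ (D.til x).A x ζ' ζ p := by
    intro ζ ζ' p
    rw [til_A_fderiv H, til_A_fderiv H, ← smul_neg]
    congr 1
    simp only [OmV, add_apply, sub_apply, ContinuousLinearMap.comp_apply]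
    abel
  have hsym : IsSymmSndFDerivAt ℝ (D.til x).k x :=
    HT.hk.isSymmSndFDerivAt (by simpa using two_le_inf)
  have hz : ∀ ξ ζ p q, fderiv ℝ (fderiv ℝ (D.til x).k) x ξ ζ p q = 0 := by
    intro ξ ζ p q
    have h1 := til_k_fderiv2 HT ξ ζ p q
    have h2 := til_k_fderiv2 HT ζ ξ p q
    rw [hanti ζ ξ p, hanti ζ ξ q] at h2
    simp only [map_neg, neg_apply] at h2
    have h3 := hsym ζ ξ
    rw [h3] at h2
    linarith
  refine
    { hh := ⟨H.hh.of_le two_le_inf, H.hsymm, H.hpos⟩
      hm := ⟨HT.hk.of_le two_le_inf, HT.ksymm, HT.kpos⟩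
      m1 := ?_
      m2 := ?_
      hS := HT.hS.of_le two_le_inf
      S1 := HT.S1
      S2 := HT.S2
      hA := HT.hA.of_le two_le_inf
      A0 := til_A_self D x
      A1 := ?_
      skew := ?_ }
  · ext u p q
    rw [HT.kpar.self_of_nhds u p q, til_A_self]
    simp
  · ext ξ ζ p q
    rw [hz]
    simp
  · intro ζ
    ext p
    have h1 := hanti ζ ζ p
    have h2 : (2 : ℝ) • fderiv ℝ (D.til x).A x ζ ζ p = 0 := by
      rw [two_smul]
      nth_rewrite 1 [h1]
      abel
    rw [zero_apply]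
    exact (smul_eq_zero.mp h2).resolve_left (by norm_num)
  · intro ζ ζ' a b
    have h1 := til_k_fderiv2 HT ζ ζ' a b
    rw [hz] at h1
    linarith

end

end Pool.Agent.Helper72.MB
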