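import Pool.Agent.Helper72.MB.P7a

/-!
# Piece MB-8a: the curvature in the new gauge
-/

open Filter Metric Module Set
open scoped Topology ContDiff RealInnerProductSpace Manifold

set_option autoImplicit false
set_option maxSynthPendingDepth 3

namespace Pool.Agent.Helper72.MB
open Pool.Agent.Helper20.PC Pool.Agent.Helper20.HP Pool.Agent.Helper20.M8 Pool.Agent.Helper20.MB

section
variable {V Y : Type*} [NormedAddCommGroup V] [NormedSpace ℝ V] [FiniteDimensional ℝ V]
  [NormedAddCommGroup Y] [NormedSpace ℝ Y] [FiniteDimensional ℝ Y] {D : BD V Y} {x : V} {y : Y}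

theorem til_A_contDiffAt (hA : ContDiffAt ℝ ∞ D.A x) : ContDiffAt ℝ ∞ (D.til x).A x := by
  have h1 := (gau_inv D.A x).2
  have h2 : ContDiff ℝ ∞ (gau D.A x) := gau_contDiff D.A x
  have h3 : ContDiff ℝ ∞ (fderiv ℝ (gau D.A x)) := by
    rw [gau_fderiv_eq]
    fun_prop
  have h4 : ContDiffAt ℝ ∞ (fun z => ContinuousLinearMap.compL ℝ Y Y Y (gau D.A x z).inverse) x :=
    (ContinuousLinearMap.compL ℝ Y Y Y).contDiff.contDiffAt.comp x h1
  have h5 : ContDiffAt ℝ ∞ (fun z => (ContinuousLinearMap.compL ℝ Y Y Y).flip (gau D.A x z)) x :=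
    (ContinuousLinearMap.compL ℝ Y Y Y).flip.contDiff.contDiffAt.comp x h2.contDiffAt
  exact h4.clm_comp ((h5.clm_comp hA).add h3.contDiffAt)

/-- derivative of an evaluated family of operators. -/
theorem apply2 {f : V → V →L[ℝ] Y →L[ℝ] Y} {x' : V} (hf : DifferentiableAt ℝ f x') (ζ : V) (p : Y) :
    HasFDerivAt (fun z => f z ζ p) (((fderiv ℝ f x').flip ζ).flip p) x' := by
  have h1 : HasFDerivAt (fun z => f z ζ) ((fderiv ℝ f x').flip ζ) x' := by
    have h2 := hf.hasFDerivAt.clm_apply (hasFDerivAt_const ζ x')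
    refine h2.congr_fderiv ?_
    ext ξ
    simp
  have h3 := h1.clm_apply (hasFDerivAt_const p x')
  refine h3.congr_fderiv ?_
  ext ξ
  simp

theorem gau_fderiv_hasFDerivAt (A : V → V →L[ℝ] Y →L[ℝ] Y) (x x' : V) :
    HasFDerivAt (fderiv ℝ (gau A x)) ((1/2 : ℝ) • (gB A x + (gB A x).flip)) x' := by
  have h1 : HasFDerivAt (fun z : V => z - x) (ContinuousLinearMap.id ℝ V) x' :=
    (hasFDerivAt_id x').sub_const x
  have h3 := ((gB A x + (gB A x).flip).hasFDerivAt.comp x' h1).const_smul (1/2 : ℝ)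
  have h4 := (hasFDerivAt_const (- A x) x').add h3
  rw [gau_fderiv_eq]
  refine h4.congr_fderiv ?_
  ext ξ
  simp

theorem inverse_apply {g : Y →L[ℝ] Y} (hg : g.IsInvertible) (q : Y) : g.inverse (g q) = q := by
  obtain ⟨e, rfl⟩ := hg
  simp

theorem apply_inverse {g : Y →L[ℝ] Y} (hg : g.IsInvertible) (q : Y) : g (g.inverse q) = q := by
  obtain ⟨e, rfl⟩ := hg
  simp

/-- the defining relation of the new connection form. -/
theorem gau_til_A (D : BD V Y) (x x' : V) (hg : (gau D.A x x').IsInvertible) (ζ : V) (p : Y) :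
    gau D.A x x' ((D.til x).A x' ζ p) = D.A x' ζ (gau D.A x x' p) + fderiv ℝ (gau D.A x) x' ζ p := by
  rw [BD.til_A, apply_inverse hg]

/-- the derivative of the defining relation. -/
theorem til_key {x' : V} (h1 : ∀ᶠ z in 𝓝 x', (gau D.A x z).IsInvertible)
    (hA : DifferentiableAt ℝ D.A x') (hA' : DifferentiableAt ℝ (D.til x).A x') (ξ ζ : V) (p : Y) :
    fderiv ℝ (gau D.A x) x' ξ ((D.til x).A x' ζ p) + gau D.A x x' (fderiv ℝ (D.til x).A x' ξ ζ p)
      = fderiv ℝ D.A x' ξ ζ (gau D.A x x' p) + D.A x' ζ (fderiv ℝ (gau D.A x) x' ξ p)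
        + ((1/2 : ℝ) • (gB D.A x + (gB D.A x).flip)) ξ ζ p := by
  have hgd := gau_hasFDerivAt D.A x x'
  rw [← (gau_hasFDerivAt D.A x x').fderiv] at hgd
  have f1 := hgd.clm_apply (apply2 hA' ζ p)
  have g1 : HasFDerivAt (fun z => D.A z ζ) ((fderiv ℝ D.A x').flip ζ) x' := by
    have g2 := hA.hasFDerivAt.clm_apply (hasFDerivAt_const ζ x')
    refine g2.congr_fderiv ?_
    ext ξ
    simp
  have f2 := g1.clm_apply (hgd.clm_apply (hasFDerivAt_const p x'))
  have f3 := ((gau_fderiv_hasFDerivAt D.A x x').clm_apply (hasFDerivAt_const ζ x')).clm_apply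
      (hasFDerivAt_const p x')
  have f4 : (fun z => gau D.A x z ((D.til x).A z ζ p)) =ᶠ[𝓝 x']
      fun z => D.A z ζ (gau D.A x z p) + fderiv ℝ (gau D.A x) z ζ p := by
    filter_upwards [h1] with z hz
    exact gau_til_A D x z hz ζ p
  have f5 := (f1.unique ((f2.add f3).congr_of_eventuallyEq f4))
  have f6 := congrArg (fun L => L ξ) f5
  simp at f6
  simp
  linear_combination (norm := module) f6

theorem til_OmV (H : D.Good x) : ∀ᶠ x' in 𝓝 x, ∀ (ζ ζ' : V) (p : Y),
    OmV (D.til x).A x' ζ ζ' p = (gau D.A x x').inverse (OmV D.A x' ζ ζ' (gau D.A x x' p)) := by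
  have e1 : ∀ᶠ x' in 𝓝 x, ∀ᶠ z in 𝓝 x', (gau D.A x z).IsInvertible :=
    (gau_inv D.A x).1.eventually_nhds
  have e2 : ∀ᶠ x' in 𝓝 x, ContDiffAt ℝ 1 D.A x' :=
    (H.hA.of_le (by exact_mod_cast le_top)).eventually (by simp)
  have e3 : ∀ᶠ x' in 𝓝 x, ContDiffAt ℝ 1 (D.til x).A x' :=
    ((til_A_contDiffAt H.hA).of_le (by exact_mod_cast le_top)).eventually (by simp)
  filter_upwards [e1, e2, e3] with x' h1 h2 h3
  have hA : DifferentiableAt ℝ D.A x' := h2.differentiableAt (by simp)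
  have hA' : DifferentiableAt ℝ (D.til x).A x' := h3.differentiableAt (by simp)
  have hg := h1.self_of_nhds
  intro ζ ζ' p
  have main : gau D.A x x' (OmV (D.til x).A x' ζ ζ' p) = OmV D.A x' ζ ζ' (gau D.A x x' p) := by
    have k1 := til_key h1 hA hA' ζ ζ' p
    have k2 := til_key h1 hA hA' ζ' ζ p
    have r1 := gau_til_A D x x' hg ζ ((D.til x).A x' ζ' p)
    have r2 := gau_til_A D x x' hg ζ' ((D.til x).A x' ζ p)
    rw [gau_til_A D x x' hg ζ' p] at r1
    rw [gau_til_A D x x' hg ζ p] at r2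
    rw [map_add] at r1 r2
    simp only [OmV, add_apply, sub_apply, ContinuousLinearMap.comp_apply, map_add, map_sub]
    rw [r1, r2]
    have k3 : ((1/2 : ℝ) • (gB D.A x + (gB D.A x).flip)) ζ ζ' p =
        ((1/2 : ℝ) • (gB D.A x + (gB D.A x).flip)) ζ' ζ p := by
      simp only [smul_apply, add_apply, ContinuousLinearMap.flip_apply]
      rw [add_comm]
    rw [k3] at k1
    linear_combination (norm := module) k1 - k2
  rw [← main, inverse_apply hg]

end

end Pool.Agent.Helper72.MB
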